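import Pool.Agent.H695R3.PP.Stmts

/-!
Pieces CLO and MEAS.
-/

set_option autoImplicit false

open scoped BigOperators ENNReal Topology
open MeasureTheory Filter

namespace Run7.h651.PP

open Pool.Agent.H695R3.PP

/-- projection along a compact set -/
theorem isClosed_proj {X Y : Type} [TopologicalSpace X] [TopologicalSpace Y] (K : Set Y)
    (hK : IsCompact K) (S : Set (Y × X)) (hS : IsClosed S) :
    IsClosed {v : X | ∃ y ∈ K, (y, v) ∈ S} := by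
  have : CompactSpace K := isCompact_iff_compactSpace.mp hK
  have h1 : IsClosed {p : K × X | ((p.1 : Y), p.2) ∈ S} :=
    hS.preimage (by fun_prop)
  have h2 := isClosedMap_snd_of_compactSpace (X := K) (Y := X) _ h1
  have h3 : {v : X | ∃ y ∈ K, (y, v) ∈ S} = Prod.snd '' {p : K × X | ((p.1 : Y), p.2) ∈ S} := by
    ext v
    constructor
    · rintro ⟨y, hy, hv⟩
      exact ⟨(⟨y, hy⟩, v), hv, rfl⟩
    · rintro ⟨⟨⟨y, hy⟩, v'⟩, hv, rfl⟩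
      exact ⟨y, hy, hv⟩
  rw [h3]
  exact h2

/-- the box of candidates -/
def Kb (R : ℝ) : Set (ℝ × (ℤ → ℝ)) := Set.Icc (-R) R ×ˢ Set.pi Set.univ (fun _ => Set.Icc (-1) 1)

theorem isCompact_Kb (R : ℝ) : IsCompact (Kb R) :=
  isCompact_Icc.prod (isCompact_univ_pi (fun _ => isCompact_Icc))

theorem eig_mem (V : ℤ → ℝ) (a b : ℤ) (R E : ℝ) (ψ : ℤ → ℝ) (hE : |E| ≤ R)
    (h : IsEig V a b E ψ) : (E, ψ) ∈ Kb R := by
  refine ⟨abs_le.mp hE, ?_⟩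
  intro n _
  show ψ n ∈ Set.Icc (-1 : ℝ) 1
  rw [Set.mem_Icc, ← abs_le]
  by_cases hn : n < a ∨ b < n
  · rw [h.1 n hn]; simp
  · push Not at hn
    have h1 : ψ n ^ 2 ≤ 1 := by
      rw [← h.2.1]
      exact Finset.single_le_sum (f := fun n => ψ n ^ 2) (fun _ _ => sq_nonneg _)
        (Finset.mem_Icc.mpr ⟨hn.1, hn.2⟩)
    rw [abs_le]
    constructor <;> nlinarith

theorem isClosed_eig (a b : ℤ) :
    IsClosed {x : (ℝ × (ℤ → ℝ)) × (ℤ → ℝ) | IsEig x.2 a b x.1.1 x.1.2} := by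
  unfold IsEig nsq
  simp only [Set.ofPred_and, Set.ofPred_forall]
  refine IsClosed.inter ?_ (IsClosed.inter ?_ ?_)
  · refine isClosed_iInter (fun n => isClosed_iInter (fun _ => ?_))
    exact isClosed_eq (by fun_prop) (by fun_prop)
  · exact isClosed_eq (by fun_prop) (by fun_prop)
  · refine isClosed_iInter (fun n => isClosed_iInter (fun _ => isClosed_iInter (fun _ => ?_)))
    exact isClosed_eq (by fun_prop) (by fun_prop)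

theorem taskClosed : TaskClosed := by
  intro a b R C hC
  have h1 := isClosed_proj (Kb R) (isCompact_Kb R)
    ({x : (ℝ × (ℤ → ℝ)) × (ℤ → ℝ) | IsEig x.2 a b x.1.1 x.1.2} ∩ C) ((isClosed_eig a b).inter hC)
  have h4 : {V : ℤ → ℝ | ∃ E ψ, |E| ≤ R ∧ IsEig V a b E ψ ∧ ((E, ψ), V) ∈ C} =
      {v : ℤ → ℝ | ∃ y ∈ Kb R, (y, v) ∈
        ({x : (ℝ × (ℤ → ℝ)) × (ℤ → ℝ) | IsEig x.2 a b x.1.1 x.1.2} ∩ C)} := by
    ext V
    constructor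
    · rintro ⟨E, ψ, hE, h2, h3⟩
      exact ⟨(E, ψ), eig_mem V a b R E ψ hE h2, h2, h3⟩
    · rintro ⟨⟨E, ψ⟩, hK, h2, h3⟩
      exact ⟨E, ψ, abs_le.mpr hK.1, h2, h3⟩
  rw [h4]
  exact h1

theorem taskClosed2 : TaskClosed2 := by
  intro a b a' b' R C hC
  have h1 := isClosed_proj (Kb R ×ˢ Kb R) ((isCompact_Kb R).prod (isCompact_Kb R))
    ({x : ((ℝ × (ℤ → ℝ)) × (ℝ × (ℤ → ℝ))) × (ℤ → ℝ) | IsEig x.2 a b x.1.1.1 x.1.1.2 ∧
      IsEig x.2 a' b' x.1.2.1 x.1.2.2 ∧ x.1 ∈ C}) (by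
      refine IsClosed.inter ?_ (IsClosed.inter ?_ ?_)
      · exact (isClosed_eig a b).preimage
          (f := fun x : ((ℝ × (ℤ → ℝ)) × (ℝ × (ℤ → ℝ))) × (ℤ → ℝ) => (x.1.1, x.2)) (by fun_prop)
      · exact (isClosed_eig a' b').preimage
          (f := fun x : ((ℝ × (ℤ → ℝ)) × (ℝ × (ℤ → ℝ))) × (ℤ → ℝ) => (x.1.2, x.2)) (by fun_prop)
      · exact hC.preimage continuous_fst)
  have h5 : {V : ℤ → ℝ | ∃ E ψ E' ψ', |E| ≤ R ∧ |E'| ≤ R ∧ IsEig V a b E ψ ∧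
      IsEig V a' b' E' ψ' ∧ ((E, ψ), (E', ψ')) ∈ C} =
      {v : ℤ → ℝ | ∃ y ∈ Kb R ×ˢ Kb R, (y, v) ∈
        ({x : ((ℝ × (ℤ → ℝ)) × (ℝ × (ℤ → ℝ))) × (ℤ → ℝ) | IsEig x.2 a b x.1.1.1 x.1.1.2 ∧
      IsEig x.2 a' b' x.1.2.1 x.1.2.2 ∧ x.1 ∈ C})} := by
    ext V
    constructor
    · rintro ⟨E, ψ, E', ψ', hE, hE', h2, h3, h4⟩
      exact ⟨((E, ψ), (E', ψ')), ⟨eig_mem V a b R E ψ hE h2, eig_mem V a' b' R E' ψ' hE' h3⟩,
        h2, h3, h4⟩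
    · rintro ⟨⟨⟨E, ψ⟩, ⟨E', ψ'⟩⟩, ⟨hK, hK'⟩, h2, h3, h4⟩
      exact ⟨E, ψ, E', ψ', abs_le.mpr hK.1, abs_le.mpr hK'.1, h2, h3, h4⟩
  rw [h5]
  exact h1

theorem taskMeas : TaskMeas := by
  constructor
  · intro L a τ
    have h1 : {V : ℤ → ℝ | Bad1 L a τ V} = ⋃ R : ℕ, {V : ℤ → ℝ | ∃ E ψ, |E| ≤ (R : ℝ) ∧
        IsEig V (-(L : ℤ)) L E ψ ∧ ((E, ψ), V) ∈ {x : (ℝ × (ℤ → ℝ)) × (ℤ → ℝ) |
          a ≤ |x.1.2 0| ∧ (τ ≤ |x.1.2 L| ∨ τ ≤ |x.1.2 (-(L : ℤ))|)}} := by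
      ext V
      rw [Set.mem_iUnion]
      constructor
      · rintro ⟨E, ψ, h2, h3, h4⟩
        obtain ⟨R, hR⟩ := exists_nat_ge |E|
        exact ⟨R, E, ψ, hR, h2, h3, h4⟩
      · rintro ⟨R, E, ψ, _, h2, h3, h4⟩
        exact ⟨E, ψ, h2, h3, h4⟩
    rw [h1]
    refine MeasurableSet.iUnion (fun R => IsClosed.measurableSet ?_)
    apply taskClosed
    have c1 : IsClosed {x : (ℝ × (ℤ → ℝ)) × (ℤ → ℝ) | a ≤ |x.1.2 0|} :=
      isClosed_le (by fun_prop) (by fun_prop)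
    have c2 : IsClosed {x : (ℝ × (ℤ → ℝ)) × (ℤ → ℝ) | τ ≤ |x.1.2 L|} :=
      isClosed_le (by fun_prop) (by fun_prop)
    have c3 : IsClosed {x : (ℝ × (ℤ → ℝ)) × (ℤ → ℝ) | τ ≤ |x.1.2 (-(L : ℤ))|} :=
      isClosed_le (by fun_prop) (by fun_prop)
    exact c1.inter (c2.union c3)
  · intro L d
    have h1 : {V : ℤ → ℝ | Bad2 L d V} = ⋃ R : ℕ, ⋃ k : ℕ, {V : ℤ → ℝ | ∃ E ψ E' ψ',
        |E| ≤ (R : ℝ) ∧ |E'| ≤ (R : ℝ) ∧ IsEig V (-(L : ℤ)) L E ψ ∧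
        IsEig V (-(L : ℤ)) L E' ψ' ∧ ((E, ψ), (E', ψ')) ∈
          {x : (ℝ × (ℤ → ℝ)) × (ℝ × (ℤ → ℝ)) | |x.1.1 - x.2.1| ≤ d ∧
            1 / ((k : ℝ) + 1) ≤ |x.1.1 - x.2.1|}} := by
      ext V
      simp only [Set.mem_iUnion]
      constructor
      · rintro ⟨E, ψ, E', ψ', h2, h3, h4, h5⟩
        obtain ⟨R, hR⟩ := exists_nat_ge (max |E| |E'|)
        obtain ⟨k, hk⟩ := exists_nat_one_div_lt (abs_pos.mpr (sub_ne_zero.mpr h4))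
        exact ⟨R, k, E, ψ, E', ψ', (le_max_left _ _).trans hR, (le_max_right _ _).trans hR,
          h2, h3, h5, hk.le⟩
      · rintro ⟨R, k, E, ψ, E', ψ', _, _, h2, h3, h4, h5⟩
        refine ⟨E, ψ, E', ψ', h2, h3, ?_, h4⟩
        intro he
        have h6 : 1 / ((k : ℝ) + 1) ≤ |E - E'| := h5
        rw [he, sub_self, abs_zero] at h6
        have : 0 < 1 / ((k : ℝ) + 1) := by positivity
        linarith
    rw [h1]
    refine MeasurableSet.iUnion (fun R => MeasurableSet.iUnion (fun k =>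
      IsClosed.measurableSet ?_))
    apply taskClosed2
    have c1 : IsClosed {x : (ℝ × (ℤ → ℝ)) × (ℝ × (ℤ → ℝ)) | |x.1.1 - x.2.1| ≤ d} :=
      isClosed_le (by fun_prop) (by fun_prop)
    have c2 : IsClosed {x : (ℝ × (ℤ → ℝ)) × (ℝ × (ℤ → ℝ)) |
        1 / ((k : ℝ) + 1) ≤ |x.1.1 - x.2.1|} :=
      isClosed_le (by fun_prop) (by fun_prop)
    exact c1.inter c2

end Run7.h651.PP
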