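import Pool.Agent.H695R3.PP.Stmts

/-!
Pieces NUM and GRP.
-/

set_option autoImplicit false

open scoped BigOperators ENNReal Topology
open MeasureTheory Filter

namespace Run7.h651.PP

open Pool.Agent.H695R3.PP

theorem taskNum : TaskNum := by
  intro κ A hκ hA
  have hA0 : 0 < A := by linarith
  have h1 : Summable (fun k : ℕ => A ^ k * Real.exp (-(κ * 4 ^ k))) := by
    apply summable_of_ratio_test_tendsto_lt_one (l := 0) zero_lt_one
    · exact Eventually.of_forall (fun k => (mul_pos (pow_pos hA0 k) (Real.exp_pos _)).ne')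
    · have h2 : ∀ k : ℕ, ‖A ^ (k + 1) * Real.exp (-(κ * 4 ^ (k + 1)))‖ /
          ‖A ^ k * Real.exp (-(κ * 4 ^ k))‖ = A * Real.exp (-(3 * κ * 4 ^ k)) := by
        intro k
        rw [Real.norm_of_nonneg (by positivity), Real.norm_of_nonneg (by positivity)]
        rw [div_eq_iff (by positivity)]
        have h3 : Real.exp (-(κ * 4 ^ (k + 1))) =
            Real.exp (-(3 * κ * 4 ^ k)) * Real.exp (-(κ * 4 ^ k)) := by
          rw [← Real.exp_add]
          congr 1
          ring
        rw [h3]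
        ring
      simp only [h2]
      have h4 : Tendsto (fun k : ℕ => (3 * κ) * (4 : ℝ) ^ k) atTop atTop :=
        (tendsto_pow_atTop_atTop_of_one_lt (by norm_num)).const_mul_atTop (by positivity)
      have h5 := (Real.tendsto_exp_neg_atTop_nhds_zero.comp h4).const_mul A
      rw [mul_zero] at h5
      exact h5
  refine ⟨h1, ?_⟩
  have hq0 : 0 ≤ Real.exp (-κ) := (Real.exp_pos _).le
  have hq1 : Real.exp (-κ) < 1 := by
    rw [Real.exp_lt_one_iff]; linarith
  have hgeo := summable_geometric_of_lt_one hq0 hq1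
  have hterm : ∀ k j : ℕ, Real.exp (-(κ * 4 ^ (k + j))) ≤
      Real.exp (-(κ * 4 ^ k)) * Real.exp (-κ) ^ j := by
    intro k j
    rw [← Real.exp_nat_mul, ← Real.exp_add, Real.exp_le_exp]
    have h2 : (4 : ℝ) ^ k + j ≤ 4 ^ (k + j) := by
      have h3 : (1 : ℝ) + j ≤ 4 ^ j := by
        have := one_add_mul_le_pow (a := (3 : ℝ)) (by norm_num) j
        norm_num at this
        have hj : (0 : ℝ) ≤ j := Nat.cast_nonneg j
        linarith
      have h4 : (1 : ℝ) ≤ 4 ^ k := one_le_pow₀ (by norm_num)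
      have hj : (0 : ℝ) ≤ j := Nat.cast_nonneg j
      rw [pow_add]
      nlinarith [mul_le_mul_of_nonneg_left h3 (by positivity : (0 : ℝ) ≤ 4 ^ k)]
    nlinarith
  have hsum : ∀ k : ℕ, Summable (fun j : ℕ => Real.exp (-(κ * 4 ^ (k + j)))) := by
    intro k
    exact Summable.of_nonneg_of_le (fun j => (Real.exp_pos _).le) (hterm k) (hgeo.mul_left _)
  have hbd : ∀ k : ℕ, A ^ k * ∑' j : ℕ, Real.exp (-(κ * 4 ^ (k + j))) ≤
      (A ^ k * Real.exp (-(κ * 4 ^ k))) * (1 - Real.exp (-κ))⁻¹ := by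
    intro k
    rw [mul_assoc]
    apply mul_le_mul_of_nonneg_left _ (by positivity)
    calc ∑' j : ℕ, Real.exp (-(κ * 4 ^ (k + j))) ≤
        ∑' j : ℕ, Real.exp (-(κ * 4 ^ k)) * Real.exp (-κ) ^ j :=
          (hsum k).tsum_le_tsum (hterm k) (hgeo.mul_left _)
      _ = _ := by rw [tsum_mul_left, tsum_geometric_of_lt_one hq0 hq1]
  have hlim : Tendsto (fun k : ℕ => (A ^ k * Real.exp (-(κ * 4 ^ k))) * (1 - Real.exp (-κ))⁻¹)
      atTop (𝓝 0) := by
    have := h1.tendsto_atTop_zero.mul_const (1 - Real.exp (-κ))⁻¹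
    rwa [zero_mul] at this
  exact squeeze_zero (fun k => mul_nonneg (by positivity)
    (tsum_nonneg (fun j => (Real.exp_pos _).le))) hbd hlim

theorem taskGroup : TaskGroup := by
  intro Ω _ _ _ _ _ _ _ α hα N
  -- the multiples are nonzero
  have hne : ∀ j : ℤ, j ≠ 0 → j • α ≠ 0 := by
    intro j hj h0
    have hfin : (Set.range (fun n : ℤ => n • α)).Finite := by
      have hsub : Set.range (fun n : ℤ => n • α) ⊆
          (fun n : ℤ => n • α) '' (Set.Ico 0 |j|) := by
        rintro _ ⟨n, rfl⟩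
        refine ⟨n % |j|, ⟨Int.emod_nonneg _ (abs_ne_zero.mpr hj),
          Int.emod_lt_of_pos _ (abs_pos.mpr hj)⟩, ?_⟩
        have h1 : |j| • α = 0 := by
          rcases abs_choice j with h | h
          · rw [h, h0]
          · rw [h, neg_smul, h0, neg_zero]
        show (n % |j|) • α = n • α
        conv_rhs => rw [← Int.emod_add_mul_ediv n |j|]
        rw [add_smul, mul_comm, mul_smul, h1, smul_zero, add_zero]
      exact ((Set.finite_Ico 0 |j|).image _).subset hsub
    have h1 : closure (Set.range (fun n : ℤ => n • α)) = Set.univ := hα.closure_eq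
    rw [hfin.isClosed.closure_eq] at h1
    rw [h1] at hfin
    exact Set.infinite_univ hfin
  set F : Set Ω := (fun j : ℤ => j • α) '' {j : ℤ | j ≠ 0 ∧ |j| ≤ N} with hF
  have hFfin : F.Finite := by
    apply Set.Finite.image
    apply (Set.finite_Icc (-(N : ℤ)) N).subset
    rintro j ⟨_, hj⟩
    exact abs_le.mp hj
  have hopen : IsOpen (Fᶜ) := hFfin.isClosed.isOpen_compl
  have h0 : (0 : Ω) ∈ Fᶜ := by
    rintro ⟨j, ⟨hj, _⟩, hj0⟩
    exact hne j hj hj0
  obtain ⟨H, hH⟩ := ProfiniteGrp.exist_openNormalAddSubgroup_sub_open_nhds_of_zero hopen h0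
  refine ⟨H.toAddSubgroup, H.isOpen', ?_, ?_⟩
  · exact AddSubgroup.quotient_finite_of_isOpen _ H.isOpen'
  · intro j hj hjN hmem
    exact hH hmem ⟨j, ⟨hj, hjN⟩, rfl⟩

end Run7.h651.PP
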