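import Pool.Agent.H695R3.PP.Stmts

/-!
Piece TOP.
-/

set_option autoImplicit false

open scoped BigOperators ENNReal Topology
open MeasureTheory Filter

namespace Run7.h651.PP

open Pool.Agent.H695R3.PP

/-- `ℓ²(ℤ)` -/
noncomputable abbrev LZ := lp (fun _ : ℤ => ℂ) 2

theorem sh_mem (m : ℤ) (f : LZ) : Memℓp (fun n : ℤ => f (n - m)) 2 := by
  have h1 := (lp.memℓp f).summable (by simp : 0 < (2 : ℝ≥0∞).toReal)
  apply memℓp_gen
  exact ((Equiv.subRight m).summable_iff).mpr h1

/-- the shift -/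
noncomputable def shL (m : ℤ) : LZ →ₗ[ℂ] LZ where
  toFun f := ⟨fun n : ℤ => f (n - m), sh_mem m f⟩
  map_add' f g := by
    ext n
    rfl
  map_smul' c f := by
    ext n
    rfl

theorem shL_apply (m : ℤ) (f : LZ) (n : ℤ) : shL m f n = f (n - m) := rfl

theorem shL_norm (m : ℤ) (f : LZ) : ‖shL m f‖ = ‖f‖ := by
  have h1 := lp.norm_rpow_eq_tsum (by simp : 0 < (2 : ℝ≥0∞).toReal) f
  have h2 := lp.norm_rpow_eq_tsum (by simp : 0 < (2 : ℝ≥0∞).toReal) (shL m f)
  have h3 : ∑' n, ‖shL m f n‖ ^ (2 : ℝ≥0∞).toReal = ∑' n, ‖f n‖ ^ (2 : ℝ≥0∞).toReal :=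
    (Equiv.subRight m).tsum_eq (fun n => ‖f n‖ ^ (2 : ℝ≥0∞).toReal)
  rw [h3, ← h1] at h2
  exact (Real.rpow_left_inj (norm_nonneg _) (norm_nonneg _) (by simp)).mp h2

/-- the continuous shift -/
noncomputable def sh (m : ℤ) : LZ →L[ℂ] LZ :=
  (shL m).mkContinuous 1 (fun f => by rw [one_mul, shL_norm])

theorem sh_apply (m : ℤ) (f : LZ) (n : ℤ) : sh m f n = f (n - m) := rfl

theorem taskTop : TaskTop := by
  intro V h
  have h1 : ∀ m : ℤ, lp.single 2 m (1 : ℂ) ∈ (EigSpan V).topologicalClosure := by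
    intro m
    have h2 : sh m (lp.single 2 (0 : ℤ) (1 : ℂ)) = lp.single 2 m (1 : ℂ) := by
      ext n
      rw [sh_apply, lp.single_apply, lp.single_apply]
      by_cases hn : n = m
      · subst hn
        simp
      · rw [Pi.single_eq_of_ne hn, Pi.single_eq_of_ne]
        intro hc
        exact hn (by linarith)
    have h3 : (EigSpan fun n => V (m + n)) ≤ (EigSpan V).comap (sh m).toLinearMap := by
      unfold EigSpan
      rw [Submodule.span_le]
      rintro ψ ⟨E, hE⟩
      apply Submodule.subset_span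
      refine ⟨E, fun n => ?_⟩
      have h4 := hE (n - m)
      have e0 : m + (n - m) = n := by ring
      simp only [e0] at h4
      show (sh m ψ) (n + 1) + (sh m ψ) (n - 1) + (V n : ℂ) * (sh m ψ) n = (E : ℂ) * (sh m ψ) n
      rw [sh_apply, sh_apply, sh_apply]
      have e1 : n + 1 - m = n - m + 1 := by ring
      have e2 : n - 1 - m = n - m - 1 := by ring
      rw [e1, e2]
      exact h4
    have h5 : ∀ f ∈ (EigSpan fun n => V (m + n)).topologicalClosure,
        sh m f ∈ (EigSpan V).topologicalClosure := by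
      intro f hf
      have h6 : f ∈ closure ((EigSpan fun n => V (m + n)) : Set LZ) := hf
      have h7 := image_closure_subset_closure_image (sh m).continuous (Set.mem_image_of_mem _ h6)
      have h8 : closure (sh m '' ((EigSpan fun n => V (m + n)) : Set LZ)) ⊆
          closure ((EigSpan V) : Set LZ) := by
        apply closure_mono
        rintro _ ⟨g, hg, rfl⟩
        exact h3 hg
      exact h8 h7
    rw [← h2]
    exact h5 _ (h m)
  rw [eq_top_iff]
  intro f _
  have h2 := lp.hasSum_single (by simp : (2 : ℝ≥0∞) ≠ ⊤) f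
  refine (EigSpan V).isClosed_topologicalClosure.mem_of_tendsto h2 ?_
  refine Eventually.of_forall (fun s => ?_)
  apply Submodule.sum_mem
  intro m _
  have h3 : (lp.single 2 m (f m) : LZ) = (f m) • (lp.single 2 m (1 : ℂ) : LZ) := by
    rw [← lp.single_smul, smul_eq_mul, mul_one]
  rw [h3]
  exact Submodule.smul_mem _ _ (h1 m)

end Run7.h651.PP
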