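import Pool.Agent.H695R3.PP.Stmts

/-!
Piece TRANS.
-/

set_option autoImplicit false

open scoped BigOperators ENNReal Topology
open MeasureTheory Filter

namespace Run7.h651.PP

open Pool.Agent.H695R3.PP

theorem pi_map_inj (Q : Type) [Fintype Q] (s : Type) [Fintype s] (q : s → Q)
    (hq : Function.Injective q) :
    Measure.map (fun η : Q → ℝ => fun n : s => η (q n)) (Measure.pi (fun _ : Q => U)) =
      Measure.pi (fun _ : s => U) := by
  classical
  symm
  apply Measure.pi_eq
  intro t ht
  rw [Measure.map_apply (by fun_prop) (MeasurableSet.univ_pi ht)]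
  have h1 : (fun η : Q → ℝ => fun n : s => η (q n)) ⁻¹' (Set.pi Set.univ t) =
      Set.pi Set.univ (fun k : Q => if h : ∃ n, q n = k then t h.choose else Set.univ) := by
    ext η
    simp only [Set.mem_preimage, Set.mem_pi, Set.mem_univ, forall_true_left]
    constructor
    · intro h k
      split_ifs with hk
      · have := h hk.choose
        rwa [hk.choose_spec] at this
      · exact Set.mem_univ _
    · intro h n
      have h2 := h (q n)
      have h3 : ∃ n', q n' = q n := ⟨n, rfl⟩
      rw [dif_pos h3] at h2
      have h4 : h3.choose = n := hq h3.choose_spec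
      rwa [h4] at h2
  rw [h1, Measure.pi_pi]
  have h2 : ∏ i : s, U (t i) = ∏ k ∈ Finset.univ.image q,
      U (if h : ∃ n, q n = k then t h.choose else Set.univ) := by
    rw [Finset.prod_image (fun a _ b _ h => hq h)]
    apply Finset.prod_congr rfl
    intro n _
    have h3 : ∃ n', q n' = q n := ⟨n, rfl⟩
    rw [dif_pos h3]
    have h4 : h3.choose = n := hq h3.choose_spec
    rw [h4]
  rw [h2]
  symm
  apply Finset.prod_subset (Finset.subset_univ _)
  intro k _ hk
  have h3 : ¬ ∃ n, q n = k := by
    rintro ⟨n, rfl⟩
    exact hk (Finset.mem_image_of_mem _ (Finset.mem_univ n))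
  rw [dif_neg h3]
  exact measure_univ

theorem taskTransfer : TaskTransfer := by
  intro Q _ q L W ε B hq hB hloc
  classical
  set s : Finset ℤ := Finset.Icc (-(L : ℤ)) L with hs
  -- extension of a window
  set ext : (s → ℝ) → (ℤ → ℝ) := fun y n => if h : n ∈ s then y ⟨n, h⟩ else 0 with hext
  have hextm : Measurable ext := by
    rw [measurable_pi_iff]
    intro n
    rw [hext]
    simp only
    by_cases h : n ∈ s
    · simp only [dif_pos h]
      exact measurable_pi_apply _
    · simp only [dif_neg h]
      exact measurable_const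
  set B' : Set (s → ℝ) := {y | (fun n => W n + ε * ext y n) ∈ B} with hB'
  have hB'm : MeasurableSet B' := by
    apply hB.preimage
    rw [measurable_pi_iff]
    intro n
    exact measurable_const.add (((measurable_pi_apply n).comp hextm).const_mul ε)
  have h1 : {x : ℤ → ℝ | (fun n => W n + ε * x n) ∈ B} = (Finset.restrict s) ⁻¹' B' := by
    ext x
    apply hloc
    intro n hn1 hn2
    have hn : n ∈ s := Finset.mem_Icc.mpr ⟨hn1, hn2⟩
    rw [hext]
    simp only [dif_pos hn]
    rfl
  have h2 : {η : Q → ℝ | (fun n => W n + ε * η (q n)) ∈ B} =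
      (fun η : Q → ℝ => fun n : s => η (q n)) ⁻¹' B' := by
    ext η
    apply hloc
    intro n hn1 hn2
    have hn : n ∈ s := Finset.mem_Icc.mpr ⟨hn1, hn2⟩
    rw [hext]
    simp only [dif_pos hn]
  rw [h1, h2, ← Measure.map_apply (by fun_prop) hB'm,
    ← Measure.map_apply (Finset.measurable_restrict s) hB'm]
  unfold PZ
  rw [Measure.infinitePi_map_restrict]
  rw [pi_map_inj Q s (fun n => q n)]
  intro a b hab
  apply Subtype.ext
  apply hq _ _ hab
  · exact Finset.mem_Icc.mp a.2
  · exact Finset.mem_Icc.mp b.2

end Run7.h651.PP
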